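import Pool.Agent.R506.RegSeq

/-!
# `a(k₁, k₂) ≤ a(k₂) + 1` fails for `(k₁, k₂) = (51, 61)`

A regular type A sequence is built from `(1,1)` by putting in front the sum of a nonempty prefix or at
the end the sum of a nonempty suffix. We show `a(61) = 8` and `a(51, 61) = 10`.

The proof is the one for regular type B sequences (where the block may lie anywhere): the terms of a
sequence with `n` terms are at most `2^(n-2)`, so in a nine-term sequence the terms `51` and `61` are
the last two terms attached, and a finite list of seven-term sequences remains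
(`Pool.Agent.R506.RegSeq`).
-/

set_option autoImplicit false

namespace Pool.Agent.Results.MP_98b1c4_co.Disproof

/-- Regular type A sequences: start with `(1,1)`; in each step either put in front the sum of a
nonempty prefix, or put at the end the sum of a nonempty suffix. -/
inductive RegularA : List ℕ → Prop
  | start : RegularA [1, 1]
  | left {d s : List ℕ} : RegularA d → s ≠ [] → s <+: d → RegularA (s.sum :: d)
  | right {d s : List ℕ} : RegularA d → s ≠ [] → s <:+ d → RegularA (d ++ [s.sum])

/-- `a ks`: the least `n` such that some regular type A sequence of length `n` contains some ordering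
of the multiset `ks` as a subsequence. -/
noncomputable def a (ks : List ℕ) : ℕ :=
  sInf {n | ∃ d, RegularA d ∧ d.length = n ∧ ∃ l : List ℕ, l.Perm ks ∧ l.Sublist d}

theorem regular_iff {d : List ℕ} : RegularA d ↔ R506.RegSeq.GrownA d := by
  constructor
  · intro h
    induction h with
    | start => exact .start
    | left _ hs hp ih => exact .left ih hs hp
    | right _ hs hp ih => exact .right ih hs hp
  · intro h
    induction h with
    | start => exact .start
    | left _ hs hp ih => exact .left ih hs hp
    | right _ hs hp ih => exact .right ih hs hp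

theorem a61 : IsLeast {n | ∃ d, RegularA d ∧ d.length = n ∧ ∃ l : List ℕ, l.Perm [61] ∧ l.Sublist d} 8 := by
  constructor
  · refine ⟨_, regular_iff.2 R506.RegSeq.ex8, rfl, [61], List.Perm.refl _, ?_⟩
    decide
  · rintro n ⟨d, hd, rfl, l, hl, hs⟩
    have h61 : 61 ∈ d := hs.subset (hl.symm.subset (by simp))
    by_contra hlt
    exact R506.RegSeq.seven (regular_iff.1 hd).toB (by omega) h61

theorem a5161 :
    IsLeast {n | ∃ d, RegularA d ∧ d.length = n ∧ ∃ l : List ℕ, l.Perm [51, 61] ∧ l.Sublist d} 10 := by
  constructor
  · refine ⟨_, regular_iff.2 R506.RegSeq.ex10, rfl, [51, 61], List.Perm.refl _, ?_⟩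
    decide
  · rintro n ⟨d, hd, rfl, l, hl, hs⟩
    have h51 : 51 ∈ d := hs.subset (hl.symm.subset (by simp))
    have h61 : 61 ∈ d := hs.subset (hl.symm.subset (by simp))
    by_contra hlt
    exact R506.RegSeq.nine (regular_iff.1 hd).toB (by omega) h51 h61

/-- `a(61) = 8` and `a(51, 61) = 10`, both values being attained; in particular it is not true that
`a(k₁, k₂) ≤ a(k₂) + 1` for all positive integers `k₁ ≤ k₂`. -/
theorem result :
    a [61] = 8 ∧ a [51, 61] = 10 ∧
      ¬ ∀ k₁ k₂ : ℕ, 0 < k₁ → k₁ ≤ k₂ → a [k₁, k₂] ≤ a [k₂] + 1 := by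
  have h1 : a [61] = 8 := a61.csInf_eq
  have h2 : a [51, 61] = 10 := a5161.csInf_eq
  refine ⟨h1, h2, fun h => ?_⟩
  have := h 51 61 (by norm_num) (by norm_num)
  rw [h1, h2] at this
  omega

end Pool.Agent.Results.MP_98b1c4_co.Disproof
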